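import Pool.Agent.MP_bd94e8_al.H89.Spec

/-!
The untwisted problem.
-/

set_option autoImplicit false
set_option linter.unusedSectionVars false

namespace Pool.Agent.MP_bd94e8_al.H89

open Module Function

namespace UntwA

variable {k F : Type} [Field k] [Field F] [Algebra k F] {Pt ι : Type} [Fintype Pt]
  [DecidableEq Pt] [Fintype ι] {Q : Prob k F Pt ι Unit} {ht : Pt → ℕ}

theorem nm (i : ι) : i ∉ (∅ : Set ι) := fun h => h

theorem sum_blk (Q : Prob k F Pt ι Unit) (b : Matrix Pt Pt F) : ∑ i, ∑ j, Q.blk i j b = b := by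
  ext q p
  simp only [Matrix.sum_apply]
  rw [Finset.sum_eq_single (Q.vt p) (fun i _ hi => Finset.sum_eq_zero fun j _ =>
      Q.blk_neg b fun h => hi h.1.symm) (by simp),
    Finset.sum_eq_single (Q.vt q) (fun j _ hj => Q.blk_neg b fun h => hj h.2.symm) (by simp),
    Q.blk_pos b rfl rfl]

theorem mem_mul {i j l : ι} {b b' : Matrix Pt Pt F} (hb : b ∈ Q.H i j) (hb' : b' ∈ Q.H j l) :
    b' * b ∈ Q.H i l := by
  refine ⟨Q.B.mul_mem hb'.1 hb.1, fun q p h => ?_⟩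
  rw [Matrix.mul_apply] at h
  obtain ⟨r, -, hr⟩ := Finset.exists_ne_zero_of_sum_ne_zero h
  exact ⟨(hb.2 r p (right_ne_zero_of_mul hr)).1, (hb'.2 q r (left_ne_zero_of_mul hr)).2⟩

theorem diag_loc (hf : Flag Q ∅ ht) {i : ι} {b b' : Matrix Pt Pt F} (hb : b ∈ Q.H i i)
    (hb' : b' ∈ Q.H i i) (p : Pt) : (b * b') p p = b p p * b' p p := by
  rw [Matrix.mul_apply]
  refine Finset.sum_eq_single p (fun q _ hq => ?_) (by simp)
  by_contra h
  have h1 := left_ne_zero_of_mul h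
  have h2 := right_ne_zero_of_mul h
  have e : Q.vt p = Q.vt q := ((hb.2 _ _ h1).2).trans (hb.2 _ _ h1).1.symm
  exact hq (hf.inj q p e.symm (nm _) (le_antisymm (hf.tri b hb.1 p q e (nm _) h1)
    (hf.tri b' hb'.1 q p e.symm (nm _) h2)))

theorem diag_nil (hf : Flag Q ∅ ht) {i : ι} {b : Matrix Pt Pt F} (hb : b ∈ Q.H i i)
    (hn : IsNilpotent b) (p : Pt) : b p p = 0 := by
  have key : ∀ n : ℕ, b ^ (n + 1) ∈ Q.H i i ∧ (b ^ (n + 1)) p p = b p p ^ (n + 1) := by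
    intro n
    induction n with
    | zero => simpa using hb
    | succ n ih =>
      rw [pow_succ b (n + 1)]
      exact ⟨mem_mul hb ih.1, by rw [diag_loc hf ih.1 hb, ih.2, ← pow_succ]⟩
  obtain ⟨n, hn⟩ := hn
  have h := (key n).2
  rw [pow_succ b, hn, zero_mul] at h
  exact pow_eq_zero_iff (Nat.succ_ne_zero n) |>.1 h.symm

theorem diag_mul (hf : Flag Q ∅ ht) {b b' : Matrix Pt Pt F} (hb : b ∈ Q.B) (hb' : b' ∈ Q.B)
    (p : Pt) : (b * b') p p = b p p * b' p p := by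
  have h1 : (b * b') p p = ∑ j, (Q.blk j (Q.vt p) b * Q.blk (Q.vt p) j b') p p := by
    simp only [Matrix.mul_apply]
    rw [Finset.sum_comm]
    refine Finset.sum_congr rfl fun q _ => ?_
    rw [Finset.sum_eq_single (Q.vt q) (fun j _ hj => by
      rw [Q.blk_neg b fun h => hj h.1.symm, zero_mul]) (by simp), Q.blk_pos b rfl rfl,
      Q.blk_pos b' rfl rfl]
  rw [h1, Finset.sum_eq_single (Q.vt p) (fun j _ hj => diag_nil hf
      (mem_mul (Q.blk_mem hb' _ _) (Q.blk_mem hb _ _))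
      (hf.basic _ _ hj.symm _ (Q.blk_mem hb' _ _) _ (Q.blk_mem hb _ _)) p) (by simp),
    diag_loc hf (Q.blk_mem hb _ _) (Q.blk_mem hb' _ _), Q.blk_pos b rfl rfl, Q.blk_pos b' rfl rfl]

theorem smul_R0 (hg : Good Q ∅) (c : F) (b : Matrix Pt Pt F) (hb : b ∈ Q.R0) : c • b ∈ Q.R0 := by
  refine ⟨?_, fun p => by simp [hb.2 p]⟩
  rw [← sum_blk Q b, Finset.smul_sum]
  refine Q.B.sum_mem fun i _ => ?_
  rw [Finset.smul_sum]
  refine Q.B.sum_mem fun j _ => ?_
  by_cases e : i = j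
  · subst e
    refine hg.smul0 i (nm _) c _ (Q.blk_mem hb.1 _ _) fun p => ?_
    by_contra h
    exact (mask_ne h).2 (hb.2 p)
  · exact hg.smul i j e (fun h => h.1) c _ (Q.blk_mem hb.1 _ _)

theorem mul_R0 (hf : Flag Q ∅ ht) (b : Matrix Pt Pt F) (hb : b ∈ Q.R0) (b' : Matrix Pt Pt F)
    (hb' : b' ∈ Q.B) : b * b' ∈ Q.R0 ∧ b' * b ∈ Q.R0 :=
  ⟨⟨Q.B.mul_mem hb.1 hb', fun p => by rw [diag_mul hf hb.1 hb', hb.2, zero_mul]⟩,
    ⟨Q.B.mul_mem hb' hb.1, fun p => by rw [diag_mul hf hb' hb.1, hb.2, mul_zero]⟩⟩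

/-- The radical as a subspace. -/
def RR (hg : Good Q ∅) : Submodule F (Matrix Pt Pt F) where
  carrier := Q.R0
  add_mem' := fun {a b} ha hb => ⟨Q.B.add_mem ha.1 hb.1, fun p => by simp [ha.2 p, hb.2 p]⟩
  zero_mem' := ⟨Q.B.zero_mem, fun _ => rfl⟩
  smul_mem' := fun c b hb => smul_R0 hg c b hb

theorem step0 (hf : Flag Q ∅ ht) {p q : Pt} (e : Q.vt p = Q.vt q) (h : ht p < ht q) :
    ∃ b ∈ Q.H (Q.vt p) (Q.vt p), b ∈ Q.R0 ∧ b q p ≠ 0 := by
  obtain ⟨b, hb, h1, h2⟩ := hf.step p q e (nm _) h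
  refine ⟨_, Q.blk_mem hb _ _, ⟨(Q.blk_mem hb _ _).1, fun r => ?_⟩, by
    rwa [Q.blk_pos b rfl e.symm]⟩
  by_contra h3
  obtain ⟨h4, h5⟩ := mask_ne h3
  exact h5 ((hf.diag b hb r p h4.1 (nm _)).trans h2)

theorem off_R0 {i j : ι} (hij : i ≠ j) {b : Matrix Pt Pt F} (hb : b ∈ Q.H i j) : b ∈ Q.R0 :=
  ⟨hb.1, fun p => by
    by_contra h
    exact hij ((hb.2 p p h).1.symm.trans (hb.2 p p h).2)⟩

theorem ar_iff (hf : Flag Q ∅ ht) (p q : Pt) : Q.Ar p q ↔ Arr Q.R0 p q := by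
  constructor
  · rintro ⟨hne, b, hb, h⟩
    by_cases e : Q.vt p = Q.vt q
    · obtain ⟨b', -, h1, h2⟩ := step0 hf e (lt_of_le_of_ne (hf.tri b hb q p e.symm (nm _) h)
        fun h' => hne (hf.inj p q e (nm _) h'))
      exact ⟨b', h1, h2⟩
    · exact ⟨_, off_R0 e (Q.blk_mem hb _ _), by rwa [Q.blk_pos b rfl rfl]⟩
  · rintro ⟨r, hr, h⟩
    exact ⟨fun e => h (e ▸ hr.2 p), r, hr.1, h⟩

theorem dg_eq (Q : Prob k F Pt ι Unit) (c : ι → F) :
    Matrix.diagonal (fun p => c (Q.vt p)) = ∑ i, c i • Q.e i := by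
  ext q p
  simp only [Matrix.sum_apply, Matrix.smul_apply]
  rw [Finset.sum_eq_single (Q.vt p) (fun i _ hi => by rw [Q.e_neg q hi.symm, smul_zero]) (by simp),
    Q.e_pos q rfl]
  by_cases e : q = p
  · subst e; simp
  · simp [e]

theorem dg_mul (hf : Flag Q ∅ ht) (hg : Good Q ∅) (c : ι → F) {r : Matrix Pt Pt F}
    (hr : r ∈ RR hg) : Matrix.diagonal (fun p => c (Q.vt p)) * r ∈ RR hg ∧
      r * Matrix.diagonal (fun p => c (Q.vt p)) ∈ RR hg := by
  rw [dg_eq, Finset.sum_mul, Finset.mul_sum]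
  refine ⟨Submodule.sum_mem _ fun i _ => ?_, Submodule.sum_mem _ fun i _ => ?_⟩
  · rw [smul_mul_assoc]
    exact Submodule.smul_mem _ _ (mul_R0 hf r hr _ (Q.e_mem i)).2
  · rw [mul_smul_comm]
    exact Submodule.smul_mem _ _ (mul_R0 hf r hr _ (Q.e_mem i)).1

theorem exists_untw (hf : Flag Q ∅ ht) (hg : Good Q ∅) : ∃ Qu, IsUntw Q Qu := by
  classical
  refine ⟨⟨Q.vt, Q.pk,
    { carrier := {b | ∃ c : ι → F, b - Matrix.diagonal (fun p => c (Q.vt p)) ∈ RR hg}
      mul_mem' := ?_, add_mem' := ?_, algebraMap_mem' := fun x => ⟨fun _ => algebraMap k F x, ?_⟩ },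
    fun i => ⟨fun j => if j = i then 1 else 0, ?_⟩, fun _ _ _ _ _ => rfl⟩, rfl, fun _ => Iff.rfl⟩
  · rintro a b ⟨c, hc⟩ ⟨d, hd⟩
    refine ⟨fun i => c i * d i, ?_⟩
    rw [← Matrix.diagonal_mul_diagonal]
    have h1 := (dg_mul hf hg c hd).1
    have h2 := (dg_mul hf hg d hc).2
    have h3 : _ ∈ RR hg := (mul_R0 hf _ hc _ hd.1).1
    convert (RR hg).add_mem ((RR hg).add_mem h1 h2) h3 using 1
    noncomm_ring
  · rintro a b ⟨c, hc⟩ ⟨d, hd⟩
    refine ⟨fun i => c i + d i, ?_⟩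
    rw [← Matrix.diagonal_add]
    convert (RR hg).add_mem hc hd using 1
    abel
  · rw [Matrix.algebraMap_eq_diagonal]
    convert (RR hg).zero_mem
    exact sub_self _
  · convert (RR hg).zero_mem
    rw [dg_eq Q fun j => if j = i then 1 else 0,
      Finset.sum_eq_single i (fun j _ hj => by simp [hj]) (by simp)]
    simp only [if_true, one_smul]
    exact sub_self _

theorem to_dg (hf : Flag Q ∅ ht) {b : Matrix Pt Pt F} (hb : b ∈ Q.B) :
    ∃ c : ι → F, ∀ p, b p p = c (Q.vt p) := by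
  classical
  refine ⟨fun i => if h : ∃ p, Q.vt p = i then b h.choose h.choose else 0, fun p => ?_⟩
  have h : ∃ p', Q.vt p' = Q.vt p := ⟨p, rfl⟩
  simp only [dif_pos h]
  exact hf.diag b hb p _ h.choose_spec.symm (nm _)

section untw
variable {Qu : Prob k F Pt ι Unit}

theorem r0_le (hu : IsUntw Q Qu) {b : Matrix Pt Pt F} (hb : b ∈ Q.R0) : b ∈ Qu.B :=
  (hu.2 b).2 ⟨fun _ => 0, by simpa using hb⟩

theorem r0_eq (hu : IsUntw Q Qu) : Qu.R0 = Q.R0 := by
  ext b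
  refine ⟨fun hb => ?_, fun hb => ⟨r0_le hu hb, hb.2⟩⟩
  obtain ⟨c, hc⟩ := (hu.2 b).1 hb.1
  have h : Matrix.diagonal (fun p => c (Q.vt p)) = 0 := by
    rw [← Matrix.diagonal_zero]
    congr 1
    funext p
    simpa [hb.2 p] using hc.2 p
  rwa [h, sub_zero] at hc

theorem off_u (hu : IsUntw Q Qu) {b : Matrix Pt Pt F} (hb : b ∈ Qu.B) {q p : Pt} (hne : p ≠ q)
    (h : b q p ≠ 0) : ∃ r ∈ Q.B, r q p ≠ 0 := by
  obtain ⟨c, hc⟩ := (hu.2 b).1 hb
  exact ⟨_, hc.1, by simpa [Matrix.diagonal_apply_ne _ hne.symm] using h⟩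

theorem ar_eq (hf : Flag Q ∅ ht) (hu : IsUntw Q Qu) : Qu.Ar = Q.Ar := by
  funext p q
  refine propext ⟨fun ⟨hne, b, hb, h⟩ => ⟨hne, off_u hu hb hne h⟩, fun h => ?_⟩
  obtain ⟨r, hr, h1⟩ := (ar_iff hf p q).1 h
  exact ⟨h.1, r, r0_le hu hr, h1⟩

theorem flag_u (hf : Flag Q ∅ ht) (hu : IsUntw Q Qu) : Flag Qu ∅ ht := by
  have hv := hu.1
  refine ⟨fun p q e _ => hf.inj p q (hv ▸ e) (nm _), fun i _ => hv ▸ hf.three i (nm _),
    fun b hb q p e _ h => ?_, fun b hb p q e _ => ?_, fun p _ c => ?_, fun p q e _ h => ?_,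
    fun i j hij b hb b' hb' => ?_, fun z hz => hz.elim, fun z hz => hz.elim, fun z hz => hz.elim,
    fun z hz => hz.elim⟩
  · by_cases hne : p = q
    · rw [hne]
    · obtain ⟨r, hr, h1⟩ := off_u hu hb hne h
      exact hf.tri r hr q p (hv ▸ e) (nm _) h1
  · obtain ⟨c, hc⟩ := (hu.2 b).1 hb
    have h1 : b p p = c (Q.vt p) := by simpa [sub_eq_zero] using hc.2 p
    have h2 : b q q = c (Q.vt q) := by simpa [sub_eq_zero] using hc.2 q
    rw [h1, h2, ← hv, e]
  · exact ⟨Matrix.diagonal fun _ => c, (hu.2 _).2 ⟨fun _ => c, by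
      rw [sub_self]; exact ⟨Q.B.zero_mem, fun _ => rfl⟩⟩, by simp⟩
  · obtain ⟨b, -, h1, h2⟩ := step0 hf (hv ▸ e) h
    exact ⟨b, r0_le hu h1, h2, h1.2 p⟩
  · have h1 : b ∈ Q.R0 := r0_eq hu ▸ off_R0 hij hb
    have h2 : b' ∈ Q.R0 := r0_eq hu ▸ off_R0 hij.symm hb'
    exact hf.basic i j hij b ⟨h1.1, fun q p h => hv ▸ hb.2 q p h⟩ b'
      ⟨h2.1, fun q p h => hv ▸ hb'.2 q p h⟩

theorem smul_u (hg : Good Q ∅) (hu : IsUntw Q Qu) (c : F) (b : Matrix Pt Pt F) (hb : b ∈ Qu.B) :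
    c • b ∈ Qu.B := by
  obtain ⟨d, hd⟩ := (hu.2 b).1 hb
  refine (hu.2 _).2 ⟨fun i => c * d i, ?_⟩
  convert smul_R0 hg c _ hd using 1
  rw [smul_sub, ← Matrix.diagonal_smul]
  rfl

theorem b_eq (hf : Flag Q ∅ ht) (hu : IsUntw Q Qu) (h : ∀ i, ∀ c : F, c • Q.e i ∈ Q.B) :
    Qu.B = Q.B := by
  have hd : ∀ c : ι → F, Matrix.diagonal (fun p => c (Q.vt p)) ∈ Q.B := fun c => by
    rw [dg_eq]
    exact Q.B.sum_mem fun i _ => h i _
  ext b
  rw [hu.2 b]
  constructor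
  · rintro ⟨c, hc⟩
    simpa using Q.B.add_mem hc.1 (hd c)
  · intro hb
    obtain ⟨c, hc⟩ := to_dg hf hb
    exact ⟨c, Q.B.sub_mem hb (hd c), fun p => by simp [hc p]⟩

end untw

section three
variable {i : ι} {p1 p2 p3 : Pt}

theorem shape (hf : Flag Q ∅ ht) (h1 : Q.vt p1 = i) (h2 : Q.vt p2 = i) (h3 : Q.vt p3 = i)
    (l12 : ht p1 < ht p2) (l23 : ht p2 < ht p3)
    (all : ∀ p, Q.vt p = i → p = p1 ∨ p = p2 ∨ p = p3) {h : Matrix Pt Pt F} (hh : h ∈ Q.H i i) :
    h = h p1 p1 • Q.e i + Matrix.single p2 p1 (h p2 p1) + Matrix.single p3 p2 (h p3 p2) +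
      Matrix.single p3 p1 (h p3 p1) := by
  have up : ∀ q p, Q.vt q = Q.vt p → ht q < ht p → h q p = 0 := fun q p e l => by
    by_contra h0
    exact absurd (hf.tri h hh.1 q p e (nm _) h0) (not_le.2 l)
  have z12 := up p1 p2 (h1.trans h2.symm) l12
  have z13 := up p1 p3 (h1.trans h3.symm) (l12.trans l23)
  have z23 := up p2 p3 (h2.trans h3.symm) l23
  have d2 := hf.diag h hh.1 p2 p1 (h2.trans h1.symm) (nm _)
  have d3 := hf.diag h hh.1 p3 p1 (h3.trans h1.symm) (nm _)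
  have n12 : p1 ≠ p2 := fun e => absurd l12 (by simp [e])
  have n23 : p2 ≠ p3 := fun e => absurd l23 (by simp [e])
  have n13 : p1 ≠ p3 := fun e => absurd (l12.trans l23) (by simp [e])
  ext q p
  by_cases hp : Q.vt p = i
  · by_cases hq : Q.vt q = i
    · rcases all p hp with e | e | e <;> rcases all q hq with e' | e' | e' <;> rw [e, e'] <;>
        simp [Q.e_pos _ h1, Q.e_pos _ h2, Q.e_pos _ h3, z12, z13, z23, d2, d3, n12, n23, n13,
          n12.symm, n23.symm, n13.symm]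
    · have h0 : h q p = 0 := by
        by_contra h0
        exact hq (hh.2 q p h0).2
      have a2 : p2 ≠ q := fun e => hq (e ▸ h2)
      have a3 : p3 ≠ q := fun e => hq (e ▸ h3)
      have a4 : q ≠ p := fun e => hq (e ▸ hp)
      simp [h0, a2, a3, Q.e_off i a4]
  · have h0 : h q p = 0 := by
      by_contra h0
      exact hp (hh.2 q p h0).1
    have a1 : p1 ≠ p := fun e => hp (e ▸ h1)
    have a2 : p2 ≠ p := fun e => hp (e ▸ h2)
    simp [h0, a1, a2, Q.e_neg q hp]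

theorem single_all (hg : Good Q ∅) {q p : Pt} {a : F} (ha : a ≠ 0)
    (h : Matrix.single q p a ∈ RR hg) (c : F) : Matrix.single q p c ∈ RR hg := by
  have := (RR hg).smul_mem (c / a) h
  rwa [Matrix.smul_single, smul_eq_mul, div_mul_cancel₀ _ ha] at this

theorem tws3 [FiniteDimensional k F] (hf : Flag Q ∅ ht) (hg : Good Q ∅) (h1 : Q.vt p1 = i)
    (h2 : Q.vt p2 = i) (h3 : Q.vt p3 = i) (l12 : ht p1 < ht p2) (l23 : ht p2 < ht p3)
    (all : ∀ p, Q.vt p = i → p = p1 ∨ p = p2 ∨ p = p3) : (∀ c : F, c • Q.e i ∈ Q.B) ∨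
    ∃ (p q : Pt) (Δ : Submodule k F), Q.vt p = i ∧ Q.vt q = i ∧ Q.Ar p q ∧ Δ ≠ ⊤ ∧
      ∀ b ∈ Q.H i i, ∃ c ∈ Δ, b - b p p • Q.e i - Matrix.single q p c ∈ Q.R0 := by
  have n12 : p1 ≠ p2 := fun e => absurd l12 (by simp [e])
  have n23 : p2 ≠ p3 := fun e => absurd l23 (by simp [e])
  have n13 : p1 ≠ p3 := fun e => absurd (l12.trans l23) (by simp [e])
  obtain ⟨x, hx, x0, x21⟩ := step0 hf (h1.trans h2.symm) l12
  obtain ⟨y, hy, y0, y32⟩ := step0 hf (h2.trans h3.symm) l23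
  rw [h1] at hx
  rw [h2] at hy
  have sx := shape hf h1 h2 h3 l12 l23 all hx
  have sy := shape hf h1 h2 h3 l12 l23 all hy
  rw [x0.2, zero_smul, zero_add] at sx
  rw [y0.2, zero_smul, zero_add] at sy
  have xR : x ∈ RR hg := x0
  have yR : y ∈ RR hg := y0
  have E31 : ∀ c, Matrix.single p3 p1 c ∈ RR hg := by
    refine single_all hg (mul_ne_zero y32 x21) ?_
    have h4 : y * x ∈ RR hg := (mul_R0 hf y y0 x x0.1).1
    convert h4 using 1
    generalize x p2 p1 = a, x p3 p2 = b, x p3 p1 = c at sx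
    generalize y p2 p1 = a', y p3 p2 = b', y p3 p1 = c' at sy
    rw [sx, sy]
    simp [mul_add, add_mul, Matrix.single_mul_single_same, Matrix.single_mul_single_of_ne, n12,
      n23, n13]
  by_cases E21 : ∀ c, Matrix.single p2 p1 c ∈ RR hg
  · left
    have E32 : ∀ c, Matrix.single p3 p2 c ∈ RR hg := by
      refine single_all hg y32 ?_
      convert (RR hg).sub_mem ((RR hg).sub_mem yR (E21 (y p2 p1))) (E31 (y p3 p1)) using 1
      rw [eq_sub_iff_add_eq, eq_sub_iff_add_eq]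
      exact Eq.trans (by abel) sy.symm
    intro c
    obtain ⟨b, hb, hc⟩ := hf.onto p1 (nm _) c
    have hb' := Q.blk_mem hb i i
    have sb := shape hf h1 h2 h3 l12 l23 all hb'
    rw [Q.blk_pos b h1 h1, hc] at sb
    convert Q.B.sub_mem (Q.B.sub_mem (Q.B.sub_mem hb'.1 (E21 (Q.blk i i b p2 p1)).1)
      (E32 (Q.blk i i b p3 p2)).1) (E31 (Q.blk i i b p3 p1)).1 using 1
    rw [eq_sub_iff_add_eq, eq_sub_iff_add_eq, eq_sub_iff_add_eq]
    exact Eq.trans (by abel) sb.symm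
  · right
    have hx2 : Matrix.single p2 p1 (x p2 p1) + Matrix.single p3 p2 (x p3 p2) ∈ RR hg := by
      convert (RR hg).sub_mem xR (E31 (x p3 p1)) using 1
      rw [eq_sub_iff_add_eq]
      exact sx.symm
    have x32 : x p3 p2 ≠ 0 := by
      intro h0
      rw [h0, Matrix.single_zero, add_zero] at hx2
      exact E21 (single_all hg x21 hx2)
    have hx3 : ∀ c : F, Matrix.single p2 p1 (c * (x p2 p1 / x p3 p2)) + Matrix.single p3 p2 c ∈
        RR hg := by
      intro c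
      have := (RR hg).smul_mem (c / x p3 p2) hx2
      rw [smul_add, Matrix.smul_single, Matrix.smul_single, smul_eq_mul, smul_eq_mul,
        div_mul_cancel₀ _ x32] at this
      convert this using 3
      ring
    let φ : Q.H i i →ₗ[k] F :=
      { toFun := fun h => h.1 p2 p1 - h.1 p3 p2 * (x p2 p1 / x p3 p2)
        map_add' := fun a b => by simp only [Submodule.coe_add, Matrix.add_apply]; ring
        map_smul' := fun c a => by
          simp only [Submodule.coe_smul, Matrix.smul_apply, RingHom.id_apply, smul_sub,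
            smul_mul_assoc] }
    let σ : Q.H i i →ₗ[k] F :=
      { toFun := fun h => h.1 p1 p1
        map_add' := fun a b => rfl
        map_smul' := fun c a => rfl }
    have key : ∀ b : Q.H i i, b.1 - b.1 p1 p1 • Q.e i - Matrix.single p2 p1 (φ b) ∈ RR hg := by
      intro b
      have sb := shape hf h1 h2 h3 l12 l23 all b.2
      convert (RR hg).add_mem (hx3 (b.1 p3 p2)) (E31 (b.1 p3 p1)) using 1
      have e : Matrix.single p2 p1 (b.1 p2 p1) = Matrix.single p2 p1 (φ b) +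
          Matrix.single p2 p1 (b.1 p3 p2 * (x p2 p1 / x p3 p2)) := by
        rw [← Matrix.single_add]
        congr 1
        exact (sub_add_cancel _ _).symm
      rw [e] at sb
      rw [sub_eq_iff_eq_add, sub_eq_iff_eq_add]
      exact sb.trans (by abel)
    refine ⟨p1, p2, LinearMap.range φ, h1, h2, ⟨n12, x, x0.1, x21⟩, fun htop => ?_,
      fun b hb => ⟨_, ⟨⟨b, hb⟩, rfl⟩, key ⟨b, hb⟩⟩⟩
    have hle : LinearMap.ker σ ≤ LinearMap.ker φ := by
      intro b hb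
      have hb0 : b.1 p1 p1 = 0 := hb
      by_contra hφ
      have h5 := key b
      rw [hb0, zero_smul, sub_zero] at h5
      have h6 : b.1 ∈ RR hg := ⟨b.2.1, fun p => by
        by_contra h0
        exact h0 ((hf.diag _ b.2.1 p p1 ((b.2.2 p p h0).1.trans h1.symm) (nm _)).trans hb0)⟩
      exact E21 (single_all hg hφ (by simpa using (RR hg).sub_mem h6 h5))
    have he : Q.e i ∈ Q.H i i := ⟨Q.e_mem i, fun q p h => by
      have h5 : Q.vt p = i := (mask_ne h).1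
      have h6 : q = p := by
        by_contra h6
        exact h (Q.e_off i h6)
      exact ⟨h5, h6 ▸ h5⟩⟩
    have hlt : LinearMap.ker σ < LinearMap.ker φ := by
      refine lt_of_le_of_ne hle fun e => ?_
      have h5 : (⟨_, he⟩ : Q.H i i) ∈ LinearMap.ker φ := by
        change Q.e i p2 p1 - Q.e i p3 p2 * _ = 0
        rw [Q.e_off i n12.symm, Q.e_off i n23.symm]
        simp
      rw [← e] at h5
      have h6 : Q.e i p1 p1 = 0 := h5
      rw [Q.e_pos _ h1] at h6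
      simp at h6
    have h7 := Submodule.finrank_lt_finrank_of_lt hlt
    have h8 := σ.finrank_range_add_finrank_ker
    have h9 := φ.finrank_range_add_finrank_ker
    have h10 := (LinearMap.range σ).finrank_le
    rw [htop, finrank_top] at h9
    omega

end three

theorem tws [FiniteDimensional k F] (hf : Flag Q ∅ ht) (hg : Good Q ∅) : Tws Q := by
  intro i
  by_cases h : Tri3 Q.vt i
  · obtain ⟨p, q, r, hp, hq, hr, n1, n2, n3⟩ := h
    have all : ∀ s, Q.vt s = i → s = p ∨ s = q ∨ s = r := fun s hs => by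
      have := hf.three i (nm _) p q r s hp hq hr hs
      tauto
    have m1 : ht p ≠ ht q := fun e => n1 (hf.inj _ _ (hp.trans hq.symm) (nm _) e)
    have m2 : ht p ≠ ht r := fun e => n2 (hf.inj _ _ (hp.trans hr.symm) (nm _) e)
    have m3 : ht q ≠ ht r := fun e => n3 (hf.inj _ _ (hq.trans hr.symm) (nm _) e)
    rcases m1.lt_or_gt with a | a <;> rcases m2.lt_or_gt with b | b <;>
      rcases m3.lt_or_gt with c | c
    · exact tws3 hf hg hp hq hr a c all
    · exact tws3 hf hg hp hr hq b c fun s hs => by have := all s hs; tauto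
    · omega
    · exact tws3 hf hg hr hp hq b a fun s hs => by have := all s hs; tauto
    · exact tws3 hf hg hq hp hr a b fun s hs => by have := all s hs; tauto
    · omega
    · exact tws3 hf hg hq hr hp c b fun s hs => by have := all s hs; tauto
    · exact tws3 hf hg hr hq hp c a fun s hs => by have := all s hs; tauto
  · exact Or.inl (hg.untw i (nm _) h)

end UntwA

open UntwA in
theorem untw : SUntw := fun _ _ _ _ _ _ _ _ _ _ _ _ _ hf hg =>
  ⟨tws hf hg, exists_untw hf hg, smul_R0 hg, mul_R0 hf, ar_iff hf, fun _ hu =>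
    ⟨r0_eq hu, ar_eq hf hu, flag_u hf hu, smul_u hg hu, b_eq hf hu⟩⟩

end Pool.Agent.MP_bd94e8_al.H89
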